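import Pool.Agent.U347.BL.Tri

/-!
The polygon (the cycle through all vertices in their cyclic order) and its chromatic polynomial.
-/

set_option autoImplicit false

namespace Pool.Agent.U347.BL

open Polynomial Pool.Agent.H207R2.BL

theorem btw_comm {V : Type} [LinearOrder V] {a b x : V} : Btw a b x ↔ Btw b a x := by
  unfold Btw
  exact or_comm

theorem btw_of_lt {V : Type} [LinearOrder V] {a b x : V} (hab : a < b) (h : Btw a b x) :
    a < x ∧ x < b := by
  rcases h with h | h
  · exact h
  · exact absurd hab (not_lt.2 (h.1.trans h.2).le)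

/-- The path through the vertices in increasing order. -/
def line (V : Type) [LinearOrder V] : SimpleGraph V where
  Adj a b := a ≠ b ∧ ∀ x, ¬ Btw a b x
  symm := ⟨fun a b h => ⟨h.1.symm, fun x hx => h.2 x (btw_comm.1 hx)⟩⟩
  loopless := ⟨fun a h => h.1 rfl⟩

/-- The cycle formed by the sides of the convex polygon with vertex set `V`: two vertices are
joined if all the other vertices lie on the same side of the line through them. -/
def polygon (V : Type) [LinearOrder V] : SimpleGraph V where
  Adj a b := a ≠ b ∧ ((∀ x, ¬ Btw a b x) ∨ ∀ x, x ≠ a → x ≠ b → Btw a b x)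
  symm := ⟨fun a b h => ⟨h.1.symm, h.2.imp (fun h x hx => h x (btw_comm.1 hx))
    (fun h x h1 h2 => btw_comm.1 (h x h2 h1))⟩⟩
  loopless := ⟨fun a h => h.1 rfl⟩

theorem polygon_noCross (V : Type) [LinearOrder V] : NoCross (polygon V) := by
  intro i j k l hij hjk hkl h
  obtain ⟨⟨_, h1⟩, _⟩ := h
  rcases h1 with h1 | h1
  · exact h1 j (Or.inl ⟨hij, hjk⟩)
  · have h2 := btw_of_lt (hij.trans hjk) (h1 l (hij.trans (hjk.trans hkl)).ne' hkl.ne')
    exact absurd hkl (not_lt.2 h2.2.le)

theorem Triang.polygon_le {V : Type} [LinearOrder V] {T : SimpleGraph V} (hT : Triang T) :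
    polygon V ≤ T := by
  have key : ∀ a b : V, a < b → (polygon V).Adj a b → T.Adj a b := by
    intro a b hab h
    by_contra hcon
    obtain ⟨c, d, h1, h2, h3, h4⟩ := hT.maximal a b hab hcon
    rcases h.2 with h5 | h5
    · exact h5 c (Or.inl ⟨h2, h3⟩)
    · have hda : d ≠ a := by
        rcases h4 with h4 | h4
        · exact h4.ne
        · exact (hab.trans h4).ne'
      have hdb : d ≠ b := by
        rcases h4 with h4 | h4
        · exact (h4.trans hab).ne
        · exact h4.ne'
      have h6 := btw_of_lt hab (h5 d hda hdb)
      rcases h4 with h4 | h4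
      · exact lt_irrefl _ (h4.trans h6.1)
      · exact lt_irrefl _ (h4.trans h6.2)
  intro a b h
  rcases lt_or_gt_of_ne h.1 with h1 | h1
  · exact key a b h1 h
  · exact (key b a h1 h.symm).symm

theorem line_comap {V : Type} [LinearOrder V] {m : V} (hm : ∀ x, x ≤ m) :
    (line V).comap (Subtype.val : {x : V // x ≠ m} → V) = line {x : V // x ≠ m} := by
  ext a b
  constructor
  · intro h
    exact ⟨fun e => h.1 (congrArg Subtype.val e), fun x hx => h.2 x.1 hx⟩
  · intro h
    refine ⟨fun e => h.1 (Subtype.ext e), fun x hx => ?_⟩
    have hxm : x ≠ m := by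
      rintro rfl
      rcases hx with hx | hx
      · exact absurd (hm b.1) (not_le.2 hx.2)
      · exact absurd (hm a.1) (not_le.2 hx.2)
    exact h.2 ⟨x, hxm⟩ hx

theorem line_chr (m : ℕ) : ∀ (V : Type) [LinearOrder V] [Fintype V],
    Fintype.card V = m + 1 → chr (line V) = X * (X - 1) ^ m := by
  classical
  induction m with
  | zero =>
    intro V _ _ hV
    obtain ⟨v, hv⟩ := Fintype.card_eq_one_iff.1 hV
    have h1 := chr_simplicial (line V) v ∅ (by
      intro z
      rw [hv z]
      constructor
      · intro h
        exact absurd rfl h.ne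
      · intro h
        exact absurd h (Finset.notMem_empty _)) (by
      intro a ha
      exact absurd ha (Finset.notMem_empty _))
    have : IsEmpty {z : V // z ≠ v} := ⟨fun z => z.2 (hv z.1)⟩
    rw [h1, chr_empty]
    simp
  | succ m ih =>
    intro V _ _ hV
    have hne : (Finset.univ : Finset V).Nonempty := by
      rw [Finset.univ_nonempty_iff, ← Fintype.card_pos_iff]
      omega
    obtain ⟨v, hv⟩ : ∃ v : V, ∀ x, x ≤ v :=
      ⟨Finset.univ.max' hne, fun x => Finset.le_max' _ _ (Finset.mem_univ x)⟩
    have hne2 : (Finset.univ.filter (fun x => x < v)).Nonempty := by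
      by_contra hcon
      rw [Finset.not_nonempty_iff_eq_empty, Finset.filter_eq_empty_iff] at hcon
      have h1 : ∀ x : V, x = v := fun x =>
        le_antisymm (hv x) (not_lt.1 (hcon (Finset.mem_univ x)))
      have h2 : Fintype.card V = 1 := Fintype.card_eq_one_iff.2 ⟨v, h1⟩
      omega
    obtain ⟨u, hu⟩ : ∃ u, u = (Finset.univ.filter (fun x => x < v)).max' hne2 := ⟨_, rfl⟩
    have hu1 : u < v := by
      have := Finset.max'_mem _ hne2
      rw [← hu] at this
      simpa using this
    have hu2 : ∀ x, x < v → x ≤ u := fun x hx => by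
      rw [hu]
      exact Finset.le_max' _ _ (by simp [hx])
    have h1 := chr_simplicial (line V) v {u} (by
      intro x
      rw [Finset.mem_singleton]
      constructor
      · intro h
        have hxv : x < v := lt_of_le_of_ne (hv x) h.1.symm
        by_contra hxu
        exact h.2 u (Or.inr ⟨lt_of_le_of_ne (hu2 x hxv) hxu, hu1⟩)
      · rintro rfl
        refine ⟨hu1.ne', fun y hy => ?_⟩
        have h2 := btw_of_lt hu1 (btw_comm.1 hy)
        exact absurd (hu2 y h2.2) (not_le.2 h2.1)) (by
      intro a ha b hb hab
      rw [Finset.mem_singleton] at ha hb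
      exact absurd (ha.trans hb.symm) hab)
    have h2 := ih {x : V // x ≠ v} (by
      have : Fintype.card {x : V // x ≠ v} = Fintype.card V - 1 := by
        rw [Fintype.card_subtype_compl, Fintype.card_subtype_eq]
      omega)
    rw [h1, line_comap hv, h2, Finset.card_singleton, Nat.cast_one, map_one]
    ring

theorem polygon_chr (m : ℕ) : ∀ (V : Type) [LinearOrder V] [Fintype V],
    Fintype.card V = m + 2 → chr (polygon V) = (X - 1) ^ (m + 2) + (-1) ^ (m + 2) * (X - 1) := by
  classical
  induction m with
  | zero =>
    intro V _ _ hV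
    obtain ⟨x, y, hxy, huniv⟩ : ∃ x y : V, x ≠ y ∧ (Finset.univ : Finset V) = {x, y} := by
      rw [← Finset.card_eq_two, Finset.card_univ, hV]
    have hall : ∀ z : V, z = x ∨ z = y := by
      intro z
      have := Finset.mem_univ z
      rw [huniv] at this
      simpa using this
    have hnb : ∀ a b z : V, a ≠ b → ¬ Btw a b z := by
      intro a b z hab hz
      have hza : z ≠ a := by
        rintro rfl
        rcases hz with hz | hz
        · exact lt_irrefl _ hz.1
        · exact lt_irrefl _ hz.2
      have hzb : z ≠ b := by
        rintro rfl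
        rcases hz with hz | hz
        · exact lt_irrefl _ hz.2
        · exact lt_irrefl _ hz.1
      rcases hall a with rfl | rfl <;> rcases hall b with rfl | rfl <;>
        rcases hall z with rfl | rfl <;> first | exact hza rfl | exact hzb rfl | exact hab rfl
    have he : polygon V = line V := by
      ext a b
      constructor
      · intro h
        exact ⟨h.1, fun z => hnb a b z h.1⟩
      · intro h
        exact ⟨h.1, Or.inl h.2⟩
    rw [he, line_chr 1 V hV]
    ring
  | succ m ih =>
    intro V _ _ hV
    have hne : (Finset.univ : Finset V).Nonempty := by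
      rw [Finset.univ_nonempty_iff, ← Fintype.card_pos_iff]
      omega
    obtain ⟨b, hb⟩ : ∃ v : V, ∀ x, x ≤ v :=
      ⟨Finset.univ.max' hne, fun x => Finset.le_max' _ _ (Finset.mem_univ x)⟩
    obtain ⟨a, ha⟩ : ∃ v : V, ∀ x, v ≤ x :=
      ⟨Finset.univ.min' hne, fun x => Finset.min'_le _ _ (Finset.mem_univ x)⟩
    obtain ⟨z, hz⟩ : ∃ z : V, z ∉ ({a, b} : Finset V) := by
      by_contra hcon
      push Not at hcon
      have h1 : (Finset.univ : Finset V) ⊆ {a, b} := fun x _ => hcon x
      have h2 := Finset.card_le_card h1
      have h3 := Finset.card_le_two (a := a) (b := b)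
      rw [Finset.card_univ] at h2
      omega
    have hz1 : z ≠ a ∧ z ≠ b := by simpa using hz
    have haz : a < z := lt_of_le_of_ne (ha z) hz1.1.symm
    have hzb : z < b := lt_of_le_of_ne (hb z) hz1.2
    have hab : a < b := haz.trans hzb
    have hdc := del_con (polygon V) (line V) a b hab.ne (by
      intro h
      exact h.2 z (Or.inr ⟨haz, hzb⟩)) (by
      intro x y
      constructor
      · rintro ⟨hxy, h | h⟩
        · exact Or.inl ⟨hxy, h⟩
        · right
          rcases lt_or_gt_of_ne hxy with hlt | hlt
          · left
            constructor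
            · by_contra hne
              have h2 := btw_of_lt hlt (h a (Ne.symm hne)
                ((ha x).trans_lt hlt).ne)
              exact absurd (ha x) (not_le.2 h2.1)
            · by_contra hne
              have h2 := btw_of_lt hlt (h b (hlt.trans_le (hb y)).ne' (Ne.symm hne))
              exact absurd (hb y) (not_le.2 h2.2)
          · right
            constructor
            · by_contra hne
              have h2 := btw_of_lt hlt (btw_comm.1 (h b (Ne.symm hne) (hlt.trans_le (hb x)).ne'))
              exact absurd (hb x) (not_le.2 h2.2)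
            · by_contra hne
              have h2 := btw_of_lt hlt (btw_comm.1 (h a ((ha y).trans_lt hlt).ne (Ne.symm hne)))
              exact absurd (ha y) (not_le.2 h2.1)
      · rintro (h | ⟨rfl, rfl⟩ | ⟨rfl, rfl⟩)
        · exact ⟨h.1, Or.inl h.2⟩
        · exact ⟨hab.ne, Or.inr (fun w h1 h2 => Or.inl ⟨lt_of_le_of_ne (ha w) h1.symm,
            lt_of_le_of_ne (hb w) h2⟩)⟩
        · exact ⟨hab.ne', Or.inr (fun w h1 h2 => Or.inr ⟨lt_of_le_of_ne (ha w) h2.symm,
            lt_of_le_of_ne (hb w) h1⟩)⟩)
    have hcon : contract (line V) a b = polygon {x : V // x ≠ b} := by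
      ext x y
      constructor
      · rintro ⟨hxy, h | ⟨h1, h2⟩ | ⟨h1, h2⟩⟩
        · exact ⟨hxy, Or.inl (fun w hw => h.2 w.1 hw)⟩
        · refine ⟨hxy, Or.inr (fun w hwx hwy => ?_)⟩
          left
          constructor
          · change x.1 < w.1
            rw [h1]
            exact lt_of_le_of_ne (ha w.1) (fun e => hwx (Subtype.ext (by rw [h1, e])))
          · change w.1 < y.1
            by_contra hcon
            have h3 : y.1 < w.1 := lt_of_le_of_ne (not_lt.1 hcon)
              (fun e => hwy (Subtype.ext e.symm))
            exact h2.2 w.1 (Or.inr ⟨h3, lt_of_le_of_ne (hb w.1) w.2⟩)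
        · refine ⟨hxy, Or.inr (fun w hwx hwy => ?_)⟩
          right
          constructor
          · change y.1 < w.1
            rw [h1]
            exact lt_of_le_of_ne (ha w.1) (fun e => hwy (Subtype.ext (by rw [h1, e])))
          · change w.1 < x.1
            by_contra hcon
            have h3 : x.1 < w.1 := lt_of_le_of_ne (not_lt.1 hcon)
              (fun e => hwx (Subtype.ext e.symm))
            exact h2.2 w.1 (Or.inr ⟨h3, lt_of_le_of_ne (hb w.1) w.2⟩)
      · rintro ⟨hxy, h | h⟩
        · refine ⟨hxy, Or.inl ⟨fun e => hxy (Subtype.ext e), fun w hw => ?_⟩⟩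
          have hwb : w ≠ b := by
            rintro rfl
            rcases hw with hw | hw
            · exact absurd (hb y.1) (not_le.2 hw.2)
            · exact absurd (hb x.1) (not_le.2 hw.2)
          exact h ⟨w, hwb⟩ hw
        · have main : ∀ x y : {x : V // x ≠ b}, x < y →
              (∀ w : {x : V // x ≠ b}, w ≠ x → w ≠ y → Btw x y w) →
              x.1 = a ∧ (line V).Adj b y.1 := by
            intro x y hlt h
            have hxa : x.1 = a := by
              by_contra hne
              have h2 := btw_of_lt hlt (h ⟨a, hab.ne⟩ (fun e => hne (congrArg Subtype.val e).symm)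
                (fun e => by
                  have h3 : x.1 < y.1 := hlt
                  rw [← e] at h3
                  exact absurd (ha x.1) (not_le.2 h3)))
              exact absurd (ha x.1) (not_le.2 h2.1)
            refine ⟨hxa, fun e => y.2 e.symm, fun w hw => ?_⟩
            have h4 := btw_of_lt (lt_of_le_of_ne (hb y.1) y.2) (btw_comm.1 hw)
            have hlt' : x.1 < y.1 := hlt
            have h5 := btw_of_lt hlt (h ⟨w, h4.2.ne⟩
              (fun e => by
                have h6 : w = x.1 := congrArg Subtype.val e
                rw [h6] at h4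
                exact lt_irrefl _ (hlt'.trans h4.1))
              (fun e => by
                have h6 : w = y.1 := congrArg Subtype.val e
                rw [h6] at h4
                exact lt_irrefl _ h4.1))
            have h7 : w < y.1 := h5.2
            exact lt_irrefl _ (h4.1.trans h7)
          rcases lt_or_gt_of_ne hxy with hlt | hlt
          · obtain ⟨h1, h2⟩ := main x y hlt h
            exact ⟨hxy, Or.inr (Or.inl ⟨h1, h2⟩)⟩
          · obtain ⟨h1, h2⟩ := main y x hlt (fun w h3 h4 => btw_comm.1 (h w h4 h3))
            exact ⟨hxy, Or.inr (Or.inr ⟨h1, h2⟩)⟩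
    have h2 := ih {x : V // x ≠ b} (by
      have : Fintype.card {x : V // x ≠ b} = Fintype.card V - 1 := by
        rw [Fintype.card_subtype_compl, Fintype.card_subtype_eq]
      omega)
    rw [hcon, h2, line_chr (m + 2) V hV] at hdc
    have h3 : chr (polygon V) = X * (X - 1) ^ (m + 2) -
        ((X - 1) ^ (m + 2) + (-1) ^ (m + 2) * (X - 1)) := by
      rw [hdc]
      ring
    rw [h3]
    ring

end Pool.Agent.U347.BL
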