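import Pool.Agent.U347.BL.Cycle

/-!
Inequalities for families of triangulations of one polygon.
-/

set_option autoImplicit false

namespace Pool.Agent.U347.BL

open Polynomial Pool.Agent.H207R2.BL

/-- Two noncrossing graphs on the same points, one drawn inside and one outside the circle. -/
theorem cauchy_page {n : ℕ} (H K : SimpleGraph (Fin n)) (hH : NoCross H) (hK : NoCross K)
    (q : ℝ) (hq : 4 ≤ q) :
    (chr (H ⊔ K)).eval q ^ 2 ≤ (chr H).eval q * (chr K).eval q := by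
  have h := family_ineq (J := Unit) (fun _ => H) (fun _ => hH) K hK q hq (fun _ => 1)
  have e : H ⊔ H = H := sup_idem H
  simp only [Finset.univ_unique, Finset.sum_singleton, one_mul, e] at h
  linarith

theorem tri_eval {n : ℕ} (hn : 2 ≤ n) {T : SimpleGraph (Fin n)} (hT : Triang T) (q : ℝ) :
    (chr T).eval q = q * (q - 1) * (q - 2) ^ (n - 2) := by
  rw [Triang.chr_eq (n - 2) (Fin n) T hT (by rw [Fintype.card_fin]; omega)]
  simp only [eval_mul, eval_pow, eval_sub, eval_X, eval_one, eval_ofNat]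

theorem polygon_eval {n : ℕ} (hn : 2 ≤ n) (q : ℝ) :
    (chr (polygon (Fin n))).eval q = (q - 1) ^ n + (-1) ^ n * (q - 1) := by
  obtain ⟨m, rfl⟩ : ∃ m, n = m + 2 := ⟨n - 2, by omega⟩
  rw [polygon_chr m (Fin (m + 2)) (by rw [Fintype.card_fin])]
  simp only [eval_mul, eval_pow, eval_sub, eval_X, eval_one, eval_add, eval_neg]

theorem tri_abs {n : ℕ} (hn : 2 ≤ n) {T T' : SimpleGraph (Fin n)} (hT : Triang T)
    (hT' : Triang T') (q : ℝ) (hq : 4 ≤ q) :
    |(chr (T ⊔ T')).eval q| ≤ q * (q - 1) * (q - 2) ^ (n - 2) := by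
  have h := cauchy_page T T' hT.noCross hT'.noCross q hq
  rw [tri_eval hn hT, tri_eval hn hT'] at h
  have ht : 0 ≤ q * (q - 1) * (q - 2) ^ (n - 2) := by
    have h1 : 0 ≤ q - 1 := by linarith
    have h2 : 0 ≤ q - 2 := by linarith
    have h3 : 0 ≤ q := by linarith
    positivity
  apply abs_le_of_sq_le_sq _ ht
  rw [pow_two (q * (q - 1) * (q - 2) ^ (n - 2))]
  exact h

theorem tri_family {n : ℕ} (hn : 2 ≤ n) {J : Type} [Fintype J] (T : J → SimpleGraph (Fin n))
    (hT : ∀ j, Triang (T j)) (q : ℝ) (hq : 4 ≤ q) (a : J → ℝ) :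
    (q * (q - 1) * (q - 2) ^ (n - 2)) ^ 2 * (∑ j, a j) ^ 2 ≤
      ((q - 1) ^ n + (-1) ^ n * (q - 1)) * ∑ i, ∑ j, a i * a j * (chr (T i ⊔ T j)).eval q := by
  have h := family_ineq T (fun j => (hT j).noCross) (polygon (Fin n)) (polygon_noCross _) q hq a
  rw [polygon_eval hn] at h
  have e : ∀ j, T j ⊔ polygon (Fin n) = T j := fun j => sup_eq_left.2 (hT j).polygon_le
  simp only [e, tri_eval hn (hT _)] at h
  rw [← Finset.sum_mul] at h
  calc (q * (q - 1) * (q - 2) ^ (n - 2)) ^ 2 * (∑ j, a j) ^ 2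
      = ((∑ j, a j) * (q * (q - 1) * (q - 2) ^ (n - 2))) ^ 2 := by ring
    _ ≤ _ := h

theorem cyc_pos {n : ℕ} (hn : 2 ≤ n) (q : ℝ) (hq : 4 ≤ q) :
    0 < (q - 1) ^ n + (-1) ^ n * (q - 1) := by
  have h1 : (1 : ℝ) < q - 1 := by linarith
  have h2 : (q - 1) < (q - 1) ^ n := by
    calc q - 1 = (q - 1) ^ 1 := (pow_one _).symm
      _ < (q - 1) ^ n := pow_lt_pow_right₀ h1 (by omega)
  rcases neg_one_pow_eq_or ℝ n with h3 | h3
  · rw [h3]
    nlinarith
  · rw [h3]
    nlinarith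

theorem tri_count {n : ℕ} (hn : 2 ≤ n) {J : Type} [Fintype J] (T : J → SimpleGraph (Fin n))
    (hT : ∀ j, Triang (T j)) (q : ℝ) (hq : 4 ≤ q) :
    (Nat.card J : ℝ) ^ 2 * (q * (q - 1) * (q - 2) ^ (n - 2)) ≤
      ((q - 1) ^ n + (-1) ^ n * (q - 1)) *
        (Nat.card {x : J × J // 0 < (chr (T x.1 ⊔ T x.2)).eval q} : ℝ) := by
  classical
  set t := q * (q - 1) * (q - 2) ^ (n - 2) with ht
  set c := (q - 1) ^ n + (-1) ^ n * (q - 1) with hc
  have htpos : 0 < t := by
    have h1 : 0 < q - 1 := by linarith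
    have h2 : 0 < q - 2 := by linarith
    have h3 : 0 < q := by linarith
    positivity
  have hcpos : 0 < c := cyc_pos hn q hq
  have h := tri_family hn T hT q hq (fun _ => 1)
  rw [← ht, ← hc] at h
  simp only [one_mul, Finset.sum_const, Finset.card_univ, nsmul_eq_mul, mul_one] at h
  have h1 : ∑ i, ∑ j, (chr (T i ⊔ T j)).eval q ≤
      (Nat.card {x : J × J // 0 < (chr (T x.1 ⊔ T x.2)).eval q} : ℝ) * t := by
    rw [← Fintype.sum_prod_type (f := fun x : J × J => (chr (T x.1 ⊔ T x.2)).eval q)]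
    have h2 : ∀ x : J × J, (chr (T x.1 ⊔ T x.2)).eval q ≤
        if 0 < (chr (T x.1 ⊔ T x.2)).eval q then t else 0 := by
      intro x
      split_ifs with h3
      · exact le_trans (le_abs_self _) (tri_abs hn (hT x.1) (hT x.2) q hq)
      · exact not_lt.1 h3
    refine (Finset.sum_le_sum (fun x _ => h2 x)).trans_eq ?_
    rw [← Finset.sum_filter, Finset.sum_const, nsmul_eq_mul, Nat.card_eq_fintype_card,
      Fintype.card_subtype]
  rw [← Nat.card_eq_fintype_card] at h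
  have h4 : t * ((Nat.card J : ℝ) ^ 2 * t) ≤
      t * (c * (Nat.card {x : J × J // 0 < (chr (T x.1 ⊔ T x.2)).eval q} : ℝ)) := by
    calc t * ((Nat.card J : ℝ) ^ 2 * t) = t ^ 2 * (Nat.card J : ℝ) ^ 2 := by ring
      _ ≤ c * ∑ i, ∑ j, (chr (T i ⊔ T j)).eval q := h
      _ ≤ c * ((Nat.card {x : J × J // 0 < (chr (T x.1 ⊔ T x.2)).eval q} : ℝ) * t) :=
        mul_le_mul_of_nonneg_left h1 hcpos.le
      _ = t * (c * (Nat.card {x : J × J // 0 < (chr (T x.1 ⊔ T x.2)).eval q} : ℝ)) := by ring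
  exact le_of_mul_le_mul_left h4 htpos

theorem tri_exists {n : ℕ} (hn : 2 ≤ n) {J : Type} [Fintype J] (T : J → SimpleGraph (Fin n))
    (hT : ∀ j, Triang (T j)) (q : ℝ) (hq : 4 ≤ q)
    (hJ : (q - 1) ^ n + (-1) ^ n * (q - 1) <
      (Nat.card J : ℝ) * (q * (q - 1) * (q - 2) ^ (n - 2))) :
    ∃ i j, i ≠ j ∧ 0 < (chr (T i ⊔ T j)).eval q := by
  classical
  by_contra hcon
  push Not at hcon
  set t := q * (q - 1) * (q - 2) ^ (n - 2) with ht
  set c := (q - 1) ^ n + (-1) ^ n * (q - 1) with hc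
  have htpos : 0 < t := by
    have h1 : 0 < q - 1 := by linarith
    have h2 : 0 < q - 2 := by linarith
    have h3 : 0 < q := by linarith
    positivity
  have hcpos : 0 < c := cyc_pos hn q hq
  have h := tri_count hn T hT q hq
  rw [← ht, ← hc] at h
  have h1 : Nat.card {x : J × J // 0 < (chr (T x.1 ⊔ T x.2)).eval q} ≤ Nat.card J := by
    apply Nat.card_le_card_of_injective (fun x => x.1.1)
    rintro ⟨⟨i, j⟩, hx⟩ ⟨⟨i', j'⟩, hx'⟩ hxx
    have e1 : i = j := by
      by_contra hne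
      exact absurd hx (not_lt.2 (hcon i j hne))
    have e2 : i' = j' := by
      by_contra hne
      exact absurd hx' (not_lt.2 (hcon i' j' hne))
    have e3 : i = i' := hxx
    subst e1
    subst e2
    subst e3
    rfl
  have h2 : (Nat.card {x : J × J // 0 < (chr (T x.1 ⊔ T x.2)).eval q} : ℝ) ≤ Nat.card J := by
    exact_mod_cast h1
  have h3 : (0 : ℝ) ≤ Nat.card J := Nat.cast_nonneg _
  have hJpos : (0 : ℝ) < Nat.card J := by
    rcases h3.lt_or_eq with h4 | h4
    · exact h4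
    · rw [← h4] at hJ
      linarith
  have h5 : (Nat.card J : ℝ) * (Nat.card J * t) ≤ Nat.card J * c := by
    calc (Nat.card J : ℝ) * (Nat.card J * t) = (Nat.card J : ℝ) ^ 2 * t := by ring
      _ ≤ _ := h
      _ ≤ c * Nat.card J := mul_le_mul_of_nonneg_left h2 hcpos.le
      _ = Nat.card J * c := mul_comm _ _
  exact absurd (le_of_mul_le_mul_left h5 hJpos) (not_le.2 hJ)

end Pool.Agent.U347.BL
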