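import Pool.Agent.U347.BL.Fam

/-!
Averages over pairs of halves drawn in the half plane.
-/

set_option autoImplicit false

namespace Pool.Agent.U347.BL

open Polynomial Pool.Agent.H207R2.BL

theorem drawn_crossless {V : Type} {n : ℕ} {N : SimpleGraph (V ⊕ Fin n)}
    (h : DrawnInHalfPlane N) : Crossless N := by
  obtain ⟨f, γ, h1, h2, h3, h4, h5⟩ := h
  exact crossless_of_drawing N f γ h1 h2 h3 h4 h5

theorem half_average {n : ℕ} {J : Type} [Fintype J] (V : J → Type) [∀ j, Finite (V j)]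
    (N : ∀ j, SimpleGraph (V j ⊕ Fin n)) (hN : ∀ j, DrawnInHalfPlane (N j)) (p : J → J → ℝ[X])
    (hp : ∀ i j, IsChrom (glue (N i) (N j)) (p i j)) (q : ℝ) (hq : 4 < q)
    (hm : ∀ j, MinorDegLe 4 (N j)) (a : J → ℝ) (ha : ∀ j, 0 ≤ a j) (ha' : ∃ j, 0 < a j) :
    0 < ∑ i, ∑ j, a i * a j * (p i j).eval q := by
  have hs : ∀ j, IsChrom (glue (N j) (emptyHalf n)) (chr (N j)) := fun j =>
    (chr_spec (N j)).of_iso (glueEmpty (N j))
  have h := fam_ineq V N (fun j => drawn_crossless (hN j)) Empty (emptyHalf n)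
    (emptyHalf_crossless n) p hp (fun j => chr (N j)) hs (X ^ n) (chrom_empty n) q hq.le a
  rw [eval_pow, eval_X] at h
  have hr : ∀ j, 0 < (chr (N j)).eval q := fun j =>
    minorDeg_pos 4 q (by exact_mod_cast hq) (N j) (hm j)
  have hsum : 0 < ∑ j, a j * (chr (N j)).eval q := by
    obtain ⟨j, hj⟩ := ha'
    exact Finset.sum_pos' (fun i _ => mul_nonneg (ha i) (hr i).le)
      ⟨j, Finset.mem_univ j, mul_pos hj (hr j)⟩
  have hqn : 0 < q ^ n := pow_pos (by linarith) n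
  by_contra hcon
  have h2 := mul_nonpos_of_nonneg_of_nonpos hqn.le (not_lt.1 hcon)
  nlinarith [pow_pos hsum 2]

end Pool.Agent.U347.BL
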