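import Pool.Agent.H207R2.BL.Plane
import Pool.Agent.H207R2.BL.Minor

/-!
Graphs drawn in one page: vertices on a line, edges as arcs above the line without crossings.
-/

set_option autoImplicit false

namespace Pool.Agent.U347.BL

open Polynomial Pool.Agent.H207R2.BL

/-- No two edges cross when the vertices stand in increasing order on a line (equivalently: on a
circle) and the edges are drawn on one side of the line (inside the circle). -/
def NoCross {V : Type} [LinearOrder V] (H : SimpleGraph V) : Prop :=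
  ∀ i j k l : V, i < j → j < k → k < l → ¬ (H.Adj i k ∧ H.Adj j l)

/-- `c` is strictly between `a` and `b` -/
def Btw {V : Type} [LinearOrder V] (a b c : V) : Prop := (a < c ∧ c < b) ∨ (b < c ∧ c < a)

theorem btw_edge {V : Type} [LinearOrder V] {H : SimpleGraph V} (hH : NoCross H) {a b c d : V}
    (hab : H.Adj a b) (hcd : H.Adj c d) (h1 : c ≠ a) (h2 : c ≠ b) (h3 : d ≠ a) (h4 : d ≠ b)
    (h : Btw a b c) : Btw a b d := by
  unfold Btw at *
  by_contra hcon
  push Not at hcon
  obtain ⟨g1, g2⟩ := hcon
  rcases h with ⟨h5, h6⟩ | ⟨h5, h6⟩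
  · rcases lt_trichotomy d a with h7 | h7 | h7
    · exact hH d a c b h7 h5 h6 ⟨hcd.symm, hab⟩
    · exact h3 h7
    · have h8 := g1 h7
      exact hH a c b d h5 h6 (lt_of_le_of_ne h8 h4.symm) ⟨hab, hcd⟩
  · rcases lt_trichotomy d b with h7 | h7 | h7
    · exact hH d b c a h7 h5 h6 ⟨hcd.symm, hab.symm⟩
    · exact h4 h7
    · have h8 := g2 h7
      exact hH b c a d h5 h6 (lt_of_le_of_ne h8 h3.symm) ⟨hab.symm, hcd⟩

theorem btw_walk {V : Type} [LinearOrder V] {H : SimpleGraph V} (hH : NoCross H) {a b : V}
    (hab : H.Adj a b) {c d : V} (w : H.Walk c d) (ha : a ∉ w.support) (hb : b ∉ w.support)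
    (h : Btw a b c) : Btw a b d := by
  induction w with
  | nil => exact h
  | @cons u v w' huv p ih =>
    rw [SimpleGraph.Walk.support_cons, List.mem_cons, not_or] at ha hb
    have h1 : v ∈ p.support := p.start_mem_support
    refine ih ha.2 hb.2 (btw_edge hH hab huv (Ne.symm ha.1) (Ne.symm hb.1) ?_ ?_ h)
    · intro e
      exact ha.2 (e ▸ h1)
    · intro e
      exact hb.2 (e ▸ h1)

/-- Separation of pairs is symmetric. -/
theorem btw_swap {V : Type} [LinearOrder V] {a b c d : V} (h1 : c ≠ a) (h2 : c ≠ b)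
    (h3 : d ≠ a) (h4 : d ≠ b) (h : Btw a b c ↔ Btw a b d) (h' : Btw c d a) : Btw c d b := by
  unfold Btw at *
  by_contra hcon
  push Not at hcon
  obtain ⟨g1, g2⟩ := hcon
  rcases h' with ⟨h5, h6⟩ | ⟨h5, h6⟩
  · -- c < a < d
    by_cases h7 : c < b
    · have h8 : d < b := lt_of_le_of_ne (g1 h7) h4
      have h9 : (a < d ∧ d < b) ∨ (b < d ∧ d < a) := Or.inl ⟨h6, h8⟩
      rcases h.2 h9 with ⟨h10, _⟩ | ⟨h10, _⟩
      · exact absurd h10 (not_lt.2 h5.le)
      · exact absurd h7 (not_lt.2 h10.le)
    · have h8 : b < c := lt_of_le_of_ne (not_lt.1 h7) h2.symm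
      have h9 : (a < c ∧ c < b) ∨ (b < c ∧ c < a) := Or.inr ⟨h8, h5⟩
      rcases h.1 h9 with ⟨_, h10⟩ | ⟨_, h10⟩
      · exact absurd (h8.trans (h5.trans h6)) (not_lt.2 h10.le)
      · exact absurd h6 (not_lt.2 h10.le)
  · -- d < a < c
    by_cases h7 : d < b
    · have h8 : c < b := lt_of_le_of_ne (g2 h7) h2
      have h9 : (a < c ∧ c < b) ∨ (b < c ∧ c < a) := Or.inl ⟨h6, h8⟩
      rcases h.1 h9 with ⟨h10, _⟩ | ⟨h10, _⟩
      · exact absurd h10 (not_lt.2 h5.le)
      · exact absurd h7 (not_lt.2 h10.le)
    · have h8 : b < d := lt_of_le_of_ne (not_lt.1 h7) h4.symm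
      have h9 : (a < d ∧ d < b) ∨ (b < d ∧ d < a) := Or.inr ⟨h8, h5⟩
      rcases h.2 h9 with ⟨_, h10⟩ | ⟨_, h10⟩
      · exact absurd (h8.trans (h5.trans h6)) (not_lt.2 h10.le)
      · exact absurd h6 (not_lt.2 h10.le)

/-- Two walks of a noncrossing graph whose ends separate each other have a common vertex. -/
theorem walks_meet {V : Type} [LinearOrder V] {H : SimpleGraph V} (hH : NoCross H) {i j k l : V}
    (hij : i < j) (hjk : j < k) (hkl : k < l) (p : H.Walk i k) (p' : H.Walk j l) :
    ∃ v, v ∈ p.support ∧ v ∈ p'.support := by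
  by_contra hcon
  push Not at hcon
  have key : ∀ (a b : V) (w : H.Walk a b), (∀ v ∈ w.support, v ∉ p'.support) →
      Btw j l b → Btw j l a := by
    intro a b w
    induction w with
    | nil => exact fun _ h => h
    | @cons u v w' huv q ih =>
      intro h1 h2
      have h3 : Btw j l v := ih (fun x hx => h1 x (by
        rw [SimpleGraph.Walk.support_cons]
        exact List.mem_cons_of_mem _ hx)) h2
      have hu : u ∉ p'.support := h1 u (SimpleGraph.Walk.start_mem_support _)
      have hv : v ∉ p'.support := h1 v (by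
        rw [SimpleGraph.Walk.support_cons]
        exact List.mem_cons_of_mem _ q.start_mem_support)
      have hj : j ∈ p'.support := p'.start_mem_support
      have hl : l ∈ p'.support := p'.end_mem_support
      have e1 : Btw v u j ↔ Btw v u l := by
        constructor
        · exact btw_walk hH huv.symm p' hv hu
        · refine btw_walk hH huv.symm p'.reverse ?_ ?_
          · rw [SimpleGraph.Walk.support_reverse, List.mem_reverse]
            exact hv
          · rw [SimpleGraph.Walk.support_reverse, List.mem_reverse]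
            exact hu
      exact btw_swap (ne_of_mem_of_not_mem hj hv) (ne_of_mem_of_not_mem hj hu)
        (ne_of_mem_of_not_mem hl hv) (ne_of_mem_of_not_mem hl hu) e1 h3
  have h1 := key i k p hcon (Or.inl ⟨hjk, hkl⟩)
  rcases h1 with ⟨h2, _⟩ | ⟨h2, _⟩
  · exact absurd hij (not_lt.2 h2.le)
  · exact absurd (hij.trans (hjk.trans hkl)) (not_lt.2 h2.le)

/-- A graph on the boundary vertices as a half without interior vertices. -/
def half {n : ℕ} (H : SimpleGraph (Fin n)) : SimpleGraph (Empty ⊕ Fin n) :=
  H.comap (Sum.elim (fun e => e.elim) id)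

theorem half_walk {n : ℕ} {H : SimpleGraph (Fin n)} (i k : Fin n)
    (p : (half H).Walk (Sum.inr i) (Sum.inr k)) :
    ∃ w : H.Walk i k, ∀ v ∈ w.support, ∃ a ∈ p.support, Sum.elim (fun e => e.elim) id a = v := by
  let φ : half H →g H := ⟨Sum.elim (fun e => e.elim) id, fun h => h⟩
  have key : ∀ (a b : Empty ⊕ Fin n) (p : (half H).Walk a b), ∃ w : H.Walk (φ a) (φ b),
      ∀ v ∈ w.support, ∃ a ∈ p.support, φ a = v := by
    intro a b p
    refine ⟨p.map φ, ?_⟩
    intro v hv
    rw [SimpleGraph.Walk.support_map, List.mem_map] at hv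
    exact hv
  exact key (Sum.inr i) (Sum.inr k) p

theorem half_crossless {n : ℕ} {H : SimpleGraph (Fin n)} (hH : NoCross H) :
    Crossless (half H) := by
  intro i j k l hij hjk hkl p p'
  obtain ⟨w1, hw1⟩ := half_walk i k p
  obtain ⟨w2, hw2⟩ := half_walk j l p'
  obtain ⟨v, hv1, hv2⟩ := walks_meet hH hij hjk hkl w1 w2
  obtain ⟨a, ha1, ha2⟩ := hw1 v hv1
  obtain ⟨b, hb1, hb2⟩ := hw2 v hv2
  have hab : a = b := by
    rcases a with a | a
    · exact a.elim
    rcases b with b | b
    · exact b.elim
    have : (a : Fin n) = b := (ha2.trans hb2.symm)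
    rw [this]
  exact ⟨a, ha1, hab ▸ hb1⟩

/-- Gluing two halves without interior vertices is the union of the two graphs. -/
def glueHalf {n : ℕ} (H H' : SimpleGraph (Fin n)) : H ⊔ H' ≃g glue (half H) (half H') where
  toFun := Sum.inr
  invFun := Sum.elim (Sum.elim (fun e => e.elim) (fun e => e.elim)) id
  left_inv := fun x => rfl
  right_inv := by
    rintro ((e | e) | i)
    · exact e.elim
    · exact e.elim
    · rfl
  map_rel_iff' := by
    intro a b
    constructor
    · rintro (⟨_, a', b', h, h1, h2⟩ | ⟨_, a', b', h, h1, h2⟩)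
      · rcases a' with a' | a'
        · exact a'.elim
        rcases b' with b' | b'
        · exact b'.elim
        have e1 : a' = a := Sum.inr_injective h1
        have e2 : b' = b := Sum.inr_injective h2
        subst e1
        subst e2
        exact Or.inl h
      · rcases a' with a' | a'
        · exact a'.elim
        rcases b' with b' | b'
        · exact b'.elim
        have e1 : a' = a := Sum.inr_injective h1
        have e2 : b' = b := Sum.inr_injective h2
        subst e1
        subst e2
        exact Or.inr h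
    · rintro (h | h)
      · exact Or.inl ⟨fun e => h.ne (Sum.inr_injective e), Sum.inr a, Sum.inr b, h, rfl, rfl⟩
      · exact Or.inr ⟨fun e => h.ne (Sum.inr_injective e), Sum.inr a, Sum.inr b, h, rfl, rfl⟩

/-- The kernel `P(H i ∪ H j, q)` of noncrossing graphs is positive semidefinite for `q ≥ 4`. -/
theorem psd_page {n : ℕ} {J : Type} [Fintype J] (H : J → SimpleGraph (Fin n))
    (hH : ∀ i, NoCross (H i)) (q : ℝ) (hq : 4 ≤ q) (a : J → ℝ) :
    0 ≤ ∑ i, ∑ j, a i * a j * (chr (H i ⊔ H j)).eval q :=
  psd (fun _ => Empty) (fun i => half (H i)) (fun i => half_crossless (hH i))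
    (fun i j => chr (H i ⊔ H j)) (fun i j => (chr_spec (H i ⊔ H j)).of_iso (glueHalf _ _)) q hq a

theorem quad' {A B C : ℝ}
    (h : ∀ x y : ℝ, 0 ≤ x * x * A + x * y * B + y * x * B + y * y * C) : B ^ 2 ≤ C * A := by
  have hC : 0 ≤ C := by
    have := h 0 1
    linarith
  rcases hC.lt_or_eq with hC | hC
  · exact quad_ineq hC h
  · have hB : B = 0 := by
      by_contra hB
      have h1 := h 1 (-(A + 1) / (2 * B))
      have h2 : (-(A + 1) / (2 * B)) * B = -(A + 1) / 2 := by
        field_simp
      rw [← hC] at h1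
      nlinarith
    rw [hB, ← hC]
    simp

theorem glue_comm_chrom {V W : Type} [Finite V] [Finite W] {n : ℕ} (N : SimpleGraph (V ⊕ Fin n))
    (M : SimpleGraph (W ⊕ Fin n)) {p : ℝ[X]} (h : IsChrom (glue N M) p) :
    IsChrom (glue M N) p := by
  classical
  intro k
  rw [h k]
  have : Fintype V := Fintype.ofFinite V
  have : Fintype W := Fintype.ofFinite W
  rw [card_glue, card_glue]
  exact Finset.sum_congr rfl (fun c _ => mul_comm _ _)

/-- The general inequality for a finite family of halves against a test half `M`. -/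
theorem fam_ineq {n : ℕ} {J : Type} [Fintype J] (V : J → Type) [∀ j, Finite (V j)]
    (N : ∀ j, SimpleGraph (V j ⊕ Fin n)) (hN : ∀ j, Crossless (N j)) (W : Type) [Finite W]
    (M : SimpleGraph (W ⊕ Fin n)) (hM : Crossless M) (p : J → J → ℝ[X])
    (hp : ∀ i j, IsChrom (glue (N i) (N j)) (p i j)) (s : J → ℝ[X])
    (hs : ∀ j, IsChrom (glue (N j) M) (s j)) (m : ℝ[X]) (hm : IsChrom (glue M M) m) (q : ℝ)
    (hq : 4 ≤ q) (a : J → ℝ) :
    (∑ j, a j * (s j).eval q) ^ 2 ≤
      m.eval q * ∑ i, ∑ j, a i * a j * (p i j).eval q := by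
  apply quad'
  intro x y
  let VV : Option J → Type := fun o => match o with
    | none => W
    | some j => V j
  have hfin : ∀ o, Finite (VV o) := by
    rintro (_ | j)
    · exact inferInstanceAs (Finite W)
    · exact inferInstanceAs (Finite (V j))
  let NN : ∀ o, SimpleGraph (VV o ⊕ Fin n) := fun o => match o with
    | none => M
    | some j => N j
  have hNN : ∀ o, Crossless (NN o) := by
    rintro (_ | j)
    · exact hM
    · exact hN j
  let P : Option J → Option J → ℝ[X] := fun o o' => match o, o' with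
    | none, none => m
    | none, some j => s j
    | some i, none => s i
    | some i, some j => p i j
  have hP : ∀ o o', IsChrom (glue (NN o) (NN o')) (P o o') := by
    rintro (_ | i) (_ | j)
    · exact hm
    · exact glue_comm_chrom _ _ (hs j)
    · exact hs i
    · exact hp i j
  have h := psd VV NN hNN P hP q hq (fun o => o.elim y (fun j => x * a j))
  simp only [Fintype.sum_option, P, Option.elim_none, Option.elim_some] at h
  have e1 : ∑ j, y * (x * a j) * (s j).eval q = y * x * ∑ j, a j * (s j).eval q := by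
    rw [Finset.mul_sum]
    refine Finset.sum_congr rfl (fun j _ => ?_)
    ring
  have e2 : ∑ i, (x * a i * y * (s i).eval q +
      ∑ j, x * a i * (x * a j) * (p i j).eval q) =
      x * y * ∑ j, a j * (s j).eval q +
      x * x * ∑ i, ∑ j, a i * a j * (p i j).eval q := by
    rw [Finset.sum_add_distrib, Finset.mul_sum, Finset.mul_sum]
    congr 1
    · refine Finset.sum_congr rfl (fun j _ => by ring)
    · refine Finset.sum_congr rfl (fun j _ => ?_)
      rw [Finset.mul_sum]
      refine Finset.sum_congr rfl (fun j _ => by ring)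
  rw [e1, e2] at h
  linarith

/-- Cauchy inequality for a family against one test graph. -/
theorem family_ineq {n : ℕ} {J : Type} [Fintype J] (H : J → SimpleGraph (Fin n))
    (hH : ∀ i, NoCross (H i)) (K : SimpleGraph (Fin n)) (hK : NoCross K) (q : ℝ) (hq : 4 ≤ q)
    (a : J → ℝ) :
    (∑ j, a j * (chr (H j ⊔ K)).eval q) ^ 2 ≤
      (chr K).eval q * ∑ i, ∑ j, a i * a j * (chr (H i ⊔ H j)).eval q := by
  apply quad'
  intro x y
  let HH : Option J → SimpleGraph (Fin n) := fun o => o.elim K H
  have h := psd_page HH (by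
    rintro (_ | j)
    · exact hK
    · exact hH j) q hq (fun o => o.elim y (fun j => x * a j))
  simp only [Fintype.sum_option, HH, Option.elim_none, Option.elim_some] at h
  have e0 : K ⊔ K = K := sup_idem K
  rw [e0] at h
  have e1 : ∑ j, y * (x * a j) * (chr (K ⊔ H j)).eval q =
      y * x * ∑ j, a j * (chr (H j ⊔ K)).eval q := by
    rw [Finset.mul_sum]
    refine Finset.sum_congr rfl (fun j _ => ?_)
    rw [sup_comm]
    ring
  have e2 : ∑ i, (x * a i * y * (chr (H i ⊔ K)).eval q +
      ∑ j, x * a i * (x * a j) * (chr (H i ⊔ H j)).eval q) =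
      x * y * ∑ j, a j * (chr (H j ⊔ K)).eval q +
      x * x * ∑ i, ∑ j, a i * a j * (chr (H i ⊔ H j)).eval q := by
    rw [Finset.sum_add_distrib, Finset.mul_sum, Finset.mul_sum]
    congr 1
    · refine Finset.sum_congr rfl (fun j _ => by ring)
    · refine Finset.sum_congr rfl (fun j _ => ?_)
      rw [Finset.mul_sum]
      refine Finset.sum_congr rfl (fun j _ => by ring)
  rw [e1, e2] at h
  linarith

end Pool.Agent.U347.BL
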