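import Pool.Agent.U347.BL.Fam

/-!
Triangle sums and the upper bound for plane triangulations.
-/

set_option autoImplicit false

namespace Pool.Agent.U347.BL

open Polynomial Pool.Agent.H207R2.BL

theorem card_inner {V : Type} [Fintype V] [DecidableEq V] {n : ℕ}
    (N : SimpleGraph (V ⊕ Fin n)) (k : ℕ) :
    (Nat.card (N.Coloring (Fin k)) : ℝ) = ∑ c : Fin n → Fin k, inner N k c := by
  classical
  rw [card_coloring]
  rw [← (Equiv.sumArrowEquivProdArrow V (Fin n) (Fin k)).symm.sum_comp]
  rw [Fintype.sum_prod_type, Finset.sum_comm]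
  rfl

theorem inner_zero {V : Type} [Fintype V] [DecidableEq V] {n : ℕ} (N : SimpleGraph (V ⊕ Fin n))
    (hN : ∀ i j : Fin n, i ≠ j → N.Adj (Sum.inr i) (Sum.inr j)) (k : ℕ) (c : Fin n → Fin k)
    (hc : ¬ Function.Injective c) : inner N k c = 0 := by
  unfold Pool.Agent.H207R2.BL.inner
  apply Finset.sum_eq_zero
  intro x _
  unfold pr
  rw [if_neg]
  intro h
  apply hc
  intro i j hij
  by_contra hne
  exact h _ _ (hN i j hne) hij

theorem inner_perm {V : Type} [Fintype V] [DecidableEq V] {n : ℕ} (N : SimpleGraph (V ⊕ Fin n))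
    (k : ℕ) (c : Fin n → Fin k) (σ : Equiv.Perm (Fin k)) :
    inner N k (fun i => σ (c i)) = inner N k c := by
  classical
  unfold Pool.Agent.H207R2.BL.inner
  let e : (V → Fin k) ≃ (V → Fin k) :=
    { toFun := fun x v => σ (x v)
      invFun := fun x v => σ.symm (x v)
      left_inv := fun x => by funext v; simp
      right_inv := fun x => by funext v; simp }
  rw [← e.sum_comp]
  refine Finset.sum_congr rfl (fun x _ => ?_)
  have h1 : (Sum.elim (e x) (fun i => σ (c i)) : V ⊕ Fin n → Fin k) =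
      fun a => σ (Sum.elim x c a) := by
    funext a
    rcases a with a | a <;> rfl
  rw [h1]
  unfold pr Proper
  have h2 : (∀ a b, N.Adj a b → σ (Sum.elim x c a) ≠ σ (Sum.elim x c b)) ↔
      ∀ a b, N.Adj a b → (Sum.elim x c a : Fin k) ≠ Sum.elim x c b := by
    constructor
    · intro h a b hab he
      exact h a b hab (congrArg σ he)
    · intro h a b hab he
      exact h a b hab (σ.injective he)
  by_cases h : (∀ a b, N.Adj a b → (Sum.elim x c a : Fin k) ≠ Sum.elim x c b)
  · rw [if_pos (h2.2 h), if_pos h]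
  · rw [if_neg (fun h' => h (h2.1 h')), if_neg h]

theorem exists_perm {n k : ℕ} (c c' : Fin n → Fin k) (hc : Function.Injective c)
    (hc' : Function.Injective c') : ∃ σ : Equiv.Perm (Fin k), c' = fun i => σ (c i) := by
  classical
  let e : {x // x ∈ Set.range c} ≃ {x // x ∈ Set.range c'} :=
    (Equiv.ofInjective c hc).symm.trans (Equiv.ofInjective c' hc')
  refine ⟨e.extendSubtype, ?_⟩
  funext i
  rw [Equiv.extendSubtype_apply_of_mem e (c i) ⟨i, rfl⟩]
  change c' i = ((Equiv.ofInjective c' hc') ((Equiv.ofInjective c hc).symm ⟨c i, i, rfl⟩)).1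
  have h1 : (Equiv.ofInjective c hc).symm ⟨c i, i, rfl⟩ = i := by
    rw [Equiv.symm_apply_eq]
    rfl
  rw [h1]
  rfl

/-- The chromatic polynomial of a triangle sum. -/
theorem chr_sum {V W : Type} [Finite V] [Finite W] (N : SimpleGraph (V ⊕ Fin 3))
    (M : SimpleGraph (W ⊕ Fin 3))
    (hN : ∀ i j : Fin 3, i ≠ j → N.Adj (Sum.inr i) (Sum.inr j))
    (hM : ∀ i j : Fin 3, i ≠ j → M.Adj (Sum.inr i) (Sum.inr j)) :
    chr (glue N M) * (X * (X - 1) * (X - 2)) = chr N * chr M := by
  classical
  have : Fintype V := Fintype.ofFinite V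
  have : Fintype W := Fintype.ofFinite W
  apply Polynomial.eq_of_infinite_eval_eq
  apply Set.infinite_of_injective_forall_mem (f := fun k : ℕ => ((k + 3 : ℕ) : ℝ))
  · intro a b hab
    have h0 : ((a + 3 : ℕ) : ℝ) = ((b + 3 : ℕ) : ℝ) := hab
    have : a + 3 = b + 3 := by exact_mod_cast h0
    omega
  intro m
  change (chr (glue N M) * (X * (X - 1) * (X - 2))).eval ((m + 3 : ℕ) : ℝ) =
    (chr N * chr M).eval ((m + 3 : ℕ) : ℝ)
  simp only [eval_mul, eval_sub, eval_X, eval_one, eval_ofNat]
  rw [chr_spec (glue N M) (m + 3), chr_spec N (m + 3), chr_spec M (m + 3), card_glue,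
    card_inner N, card_inner M]
  let c0 : Fin 3 → Fin (m + 3) := fun i => ⟨i.val, by omega⟩
  have hc0 : Function.Injective c0 := by
    intro i j hij
    have h : (c0 i).val = (c0 j).val := congrArg Fin.val hij
    exact Fin.ext h
  have key : ∀ {V : Type} [Fintype V] [DecidableEq V] (N : SimpleGraph (V ⊕ Fin 3)),
      (∀ i j : Fin 3, i ≠ j → N.Adj (Sum.inr i) (Sum.inr j)) → ∀ c : Fin 3 → Fin (m + 3),
      inner N (m + 3) c = if Function.Injective c then inner N (m + 3) c0 else 0 := by
    intro V _ _ N hN c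
    split_ifs with h
    · obtain ⟨σ, rfl⟩ := exists_perm c0 c hc0 h
      exact inner_perm N (m + 3) c0 σ
    · exact inner_zero N hN _ c h
  have hI : ((Finset.univ.filter (fun c : Fin 3 → Fin (m + 3) => Function.Injective c)).card : ℝ) =
      ((m + 3 : ℕ) : ℝ) * (((m + 3 : ℕ) : ℝ) - 1) * (((m + 3 : ℕ) : ℝ) - 2) := by
    have h1 : (Finset.univ.filter (fun c : Fin 3 → Fin (m + 3) => Function.Injective c)).card =
        (m + 3).descFactorial 3 := by
      rw [← Fintype.card_subtype]
      have h2 := Fintype.card_embedding_eq (α := Fin 3) (β := Fin (m + 3))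
      rw [Fintype.card_fin, Fintype.card_fin] at h2
      rw [← h2]
      exact Fintype.card_congr (Equiv.subtypeInjectiveEquivEmbedding (Fin 3) (Fin (m + 3)))
    rw [h1]
    have h3 : (m + 3).descFactorial 3 = (m + 3) * (m + 2) * (m + 1) := by
      have e1 : m + 3 - 2 = m + 1 := by omega
      have e2 : m + 3 - 1 = m + 2 := by omega
      simp only [Nat.descFactorial, e1, e2, Nat.sub_zero]
      ring
    rw [h3]
    push_cast
    ring
  have e1 : ∑ c : Fin 3 → Fin (m + 3), inner N (m + 3) c * inner M (m + 3) c =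
      ((Finset.univ.filter (fun c : Fin 3 → Fin (m + 3) => Function.Injective c)).card : ℝ) *
        (inner N (m + 3) c0 * inner M (m + 3) c0) := by
    rw [← nsmul_eq_mul, ← Finset.sum_const, Finset.sum_filter]
    refine Finset.sum_congr rfl (fun c _ => ?_)
    rw [key N hN c, key M hM c]
    split_ifs <;> simp
  have e2 : ∀ {V : Type} [Fintype V] [DecidableEq V] (N : SimpleGraph (V ⊕ Fin 3)),
      (∀ i j : Fin 3, i ≠ j → N.Adj (Sum.inr i) (Sum.inr j)) →
      ∑ c : Fin 3 → Fin (m + 3), inner N (m + 3) c =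
      ((Finset.univ.filter (fun c : Fin 3 → Fin (m + 3) => Function.Injective c)).card : ℝ) *
        inner N (m + 3) c0 := by
    intro V _ _ N hN
    rw [← nsmul_eq_mul, ← Finset.sum_const, Finset.sum_filter]
    exact Finset.sum_congr rfl (fun c _ => key N hN c)
  rw [e1, e2 N hN, e2 M hM, hI]
  ring

/-- The least family of graphs which contains the union of two triangulations of one convex
polygon with at least three vertices (one drawn inside, one outside), and with two graphs their
sum along a triangle (three vertices which are pairwise joined in both graphs are identified in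
pairs), and which is closed under isomorphism. -/
inductive TriBuilt : (V : Type) → SimpleGraph V → Prop
  | page (n : ℕ) (hn : 3 ≤ n) (T T' : SimpleGraph (Fin n)) (hT : Triang T) (hT' : Triang T') :
      TriBuilt (Fin n) (T ⊔ T')
  | sum (V W : Type) (N : SimpleGraph (V ⊕ Fin 3)) (M : SimpleGraph (W ⊕ Fin 3))
      (hN : TriBuilt (V ⊕ Fin 3) N) (hM : TriBuilt (W ⊕ Fin 3) M)
      (hN' : ∀ i j : Fin 3, i ≠ j → N.Adj (Sum.inr i) (Sum.inr j))
      (hM' : ∀ i j : Fin 3, i ≠ j → M.Adj (Sum.inr i) (Sum.inr j)) :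
      TriBuilt ((V ⊕ W) ⊕ Fin 3) (glue N M)
  | iso (V W : Type) (G : SimpleGraph V) (H : SimpleGraph W) (hG : TriBuilt V G)
      (e : G ≃g H) : TriBuilt W H

theorem built_bound {V : Type} {G : SimpleGraph V} (h : TriBuilt V G) :
    Finite V ∧ 3 ≤ Nat.card V ∧ ∀ p : ℝ[X], IsChrom G p → ∀ q : ℝ, 4 ≤ q →
      |p.eval q| ≤ q * (q - 1) * (q - 2) ^ (Nat.card V - 2) := by
  induction h with
  | page n hn T T' hT hT' =>
    refine ⟨inferInstance, by rw [Nat.card_fin]; exact hn, fun p hp q hq => ?_⟩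
    rw [eq_chr hp, Nat.card_fin]
    exact tri_abs (by omega) hT hT' q hq
  | iso V W G H hG e ih =>
    obtain ⟨h1, h2, h3⟩ := ih
    have hc : Nat.card W = Nat.card V := (Nat.card_congr e.toEquiv).symm
    refine ⟨Finite.of_equiv V e.toEquiv, by rw [hc]; exact h2, fun p hp q hq => ?_⟩
    rw [hc]
    exact h3 p (hp.of_iso e.symm) q hq
  | sum V W N M hN hM hN' hM' ihN ihM =>
    obtain ⟨h1, h2, h3⟩ := ihN
    obtain ⟨g1, g2, g3⟩ := ihM
    have hV : Finite V := Finite.of_injective (Sum.inl : V → V ⊕ Fin 3) Sum.inl_injective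
    have hW : Finite W := Finite.of_injective (Sum.inl : W → W ⊕ Fin 3) Sum.inl_injective
    have cV : Nat.card (V ⊕ Fin 3) = Nat.card V + 3 := by rw [Nat.card_sum, Nat.card_fin]
    have cW : Nat.card (W ⊕ Fin 3) = Nat.card W + 3 := by rw [Nat.card_sum, Nat.card_fin]
    have cVW : Nat.card ((V ⊕ W) ⊕ Fin 3) = Nat.card V + Nat.card W + 3 := by
      rw [Nat.card_sum, Nat.card_sum, Nat.card_fin]
    refine ⟨inferInstance, by omega, fun p hp q hq => ?_⟩
    have a1 := h3 _ (chr_spec N) q hq
    have a2 := g3 _ (chr_spec M) q hq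
    have a3 := congrArg (fun r : ℝ[X] => |r.eval q|) (chr_sum N M hN' hM')
    simp only [eval_mul, eval_sub, eval_X, eval_one, eval_ofNat, abs_mul] at a3
    rw [← eq_chr hp] at a3
    rw [cV] at a1
    rw [cW] at a2
    rw [cVW]
    have q0 : 0 < q := by linarith
    have q1 : 0 < q - 1 := by linarith
    have q2 : 0 < q - 2 := by linarith
    rw [abs_of_pos q0, abs_of_pos q1, abs_of_pos q2] at a3
    have b1 : |(chr N).eval q| * |(chr M).eval q| ≤
        (q * (q - 1) * (q - 2) ^ (Nat.card V + 3 - 2)) *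
          (q * (q - 1) * (q - 2) ^ (Nat.card W + 3 - 2)) :=
      mul_le_mul a1 a2 (abs_nonneg _) (by positivity)
    have e1 : Nat.card V + 3 - 2 = Nat.card V + 1 := by omega
    have e2 : Nat.card W + 3 - 2 = Nat.card W + 1 := by omega
    have e3 : Nat.card V + Nat.card W + 3 - 2 = Nat.card V + Nat.card W + 1 := by omega
    rw [e1, e2] at b1
    rw [e3]
    have b2 : (q * (q - 1) * (q - 2)) * |p.eval q| ≤
        (q * (q - 1) * (q - 2)) * (q * (q - 1) * (q - 2) ^ (Nat.card V + Nat.card W + 1)) := by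
      calc (q * (q - 1) * (q - 2)) * |p.eval q|
          = |p.eval q| * (q * (q - 1) * (q - 2)) := mul_comm _ _
        _ = |(chr N).eval q| * |(chr M).eval q| := a3
        _ ≤ _ := b1
        _ = _ := by ring
    exact le_of_mul_le_mul_left b2 (by positivity)

end Pool.Agent.U347.BL
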