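import Pool.Agent.U347.BL.Page

/-!
Triangulations of a polygon and their chromatic polynomial.
-/

set_option autoImplicit false

namespace Pool.Agent.U347.BL

open Polynomial Pool.Agent.H207R2.BL

theorem fiber_card {k : ℕ} {ι : Type} (S : Finset ι) (g : ι → Fin k)
    (hg : ∀ x ∈ S, ∀ y ∈ S, x ≠ y → g x ≠ g y) :
    (Nat.card {c : Fin k // ∀ x, x ∈ S → c ≠ g x} : ℝ) = (k : ℝ) - S.card := by
  classical
  have h1 : (S.image g).card = S.card := by
    apply Finset.card_image_of_injOn
    intro x hx y hy hxy
    by_contra hne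
    exact hg x hx y hy hne hxy
  have h2 : Nat.card {c : Fin k // ∀ x, x ∈ S → c ≠ g x} = ((S.image g)ᶜ).card := by
    rw [Nat.card_eq_fintype_card, Fintype.card_subtype]
    congr 1
    ext c
    simp only [Finset.mem_filter, Finset.mem_univ, true_and, Finset.mem_compl, Finset.mem_image,
      not_exists, not_and]
    constructor
    · intro h x hx hxc
      exact h x hx hxc.symm
    · intro h x hx hxc
      exact h x hx hxc.symm
  have h3 : (S.image g).card ≤ k := by
    have := Finset.card_le_univ (S.image g)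
    rwa [Fintype.card_fin] at this
  rw [h2, Finset.card_compl, Fintype.card_fin, Nat.cast_sub h3, h1]

/-- Removing a vertex whose neighbours are pairwise adjacent. -/
theorem chr_simplicial {V : Type} [Finite V] (G : SimpleGraph V) (v : V) (S : Finset V)
    (hv : ∀ x, G.Adj v x ↔ x ∈ S) (hS : ∀ x ∈ S, ∀ y ∈ S, x ≠ y → G.Adj x y) :
    chr G = (X - C (S.card : ℝ)) * chr (G.comap (Subtype.val : {x : V // x ≠ v} → V)) := by
  classical
  have : Fintype V := Fintype.ofFinite V
  have hSv : ∀ x ∈ S, x ≠ v := fun x hx => ((hv x).2 hx).ne'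
  refine (eq_chr (p := (X - C (S.card : ℝ)) *
    chr (G.comap (Subtype.val : {x : V // x ≠ v} → V))) ?_).symm
  intro k
  rw [Polynomial.eval_mul, Polynomial.eval_sub, Polynomial.eval_X, Polynomial.eval_C,
    chr_spec _ k, card_colorings, card_colorings]
  let f : {g : V → Fin k // Proper G g} →
      {g : {x : V // x ≠ v} → Fin k // Proper (G.comap Subtype.val) g} :=
    fun g => ⟨fun x => g.1 x.1, fun a b h => g.2 _ _ h⟩
  have hfib : ∀ g' : {g : {x : V // x ≠ v} → Fin k // Proper (G.comap Subtype.val) g},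
      (Nat.card {g // f g = g'} : ℝ) = (k : ℝ) - S.card := by
    intro g'
    let S' : Finset {x : V // x ≠ v} := S.subtype (fun x => x ≠ v)
    have hS'c : S'.card = S.card := by
      rw [Finset.card_subtype]
      congr 1
      exact Finset.filter_true_of_mem hSv
    have h1 := fiber_card S' g'.1 (fun x hx y hy hxy => g'.2 x y
      (hS x.1 (Finset.mem_subtype.1 hx) y.1 (Finset.mem_subtype.1 hy)
        (fun e => hxy (Subtype.ext e))))
    rw [hS'c] at h1
    rw [← h1]
    congr 1
    apply Nat.card_congr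
    refine
      { toFun := fun g => ⟨g.1.1 v, fun x hx e => ?_⟩
        invFun := fun c => ⟨⟨fun x => if hx : x = v then c.1 else g'.1 ⟨x, hx⟩, ?_⟩, ?_⟩
        left_inv := ?_
        right_inv := ?_ }
    · have h2 : g'.1 x = g.1.1 x.1 := (congrFun (congrArg Subtype.val g.2) x).symm
      rw [h2] at e
      exact g.1.2 v x.1 ((hv x.1).2 (Finset.mem_subtype.1 hx)) e
    · intro a b hab
      by_cases ha : a = v
      · subst ha
        have hb : b ≠ a := hab.ne'
        simp only [dif_neg hb]
        exact c.2 ⟨b, hb⟩ (Finset.mem_subtype.2 ((hv b).1 hab))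
      · by_cases hb : b = v
        · subst hb
          simp only [dif_neg ha]
          exact (c.2 ⟨a, ha⟩ (Finset.mem_subtype.2 ((hv a).1 hab.symm))).symm
        · simp only [dif_neg ha, dif_neg hb]
          exact g'.2 ⟨a, ha⟩ ⟨b, hb⟩ hab
    · apply Subtype.ext
      funext x
      simp [f, x.2]
    · intro g
      apply Subtype.ext
      apply Subtype.ext
      funext x
      by_cases hx : x = v
      · subst hx
        simp
      · simp only [dif_neg hx]
        exact (congrFun (congrArg Subtype.val g.2) ⟨x, hx⟩).symm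
    · intro c
      apply Subtype.ext
      simp
  rw [← Nat.card_congr (Equiv.sigmaFiberEquiv f), Nat.card_sigma]
  push_cast
  rw [Finset.sum_congr rfl (fun g' _ => hfib g'), Finset.sum_const, Finset.card_univ,
    ← Nat.card_eq_fintype_card, nsmul_eq_mul]
  ring

theorem chr_empty {V : Type} [Finite V] [he : IsEmpty V] (G : SimpleGraph V) : chr G = 1 := by
  refine (eq_chr (p := (1 : ℝ[X])) ?_).symm
  intro k
  rw [card_colorings]
  have : Nat.card {g : V → Fin k // Proper G g} = 1 := by
    rw [Nat.card_eq_one_iff_unique]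
    refine ⟨⟨fun a b => Subtype.ext (funext fun x => (he.false x).elim)⟩,
      ⟨fun x => (he.false x).elim, fun a => (he.false a).elim⟩⟩
  rw [this]
  simp

/-- `T` is a triangulation of the convex polygon with the vertex set `V` (in cyclic order): no two
edges cross, and every pair which is not an edge is crossed by an edge. -/
structure Triang {V : Type} [LinearOrder V] (T : SimpleGraph V) : Prop where
  noCross : NoCross T
  maximal : ∀ a b : V, a < b → ¬ T.Adj a b →
    ∃ c d : V, T.Adj c d ∧ a < c ∧ c < b ∧ (d < a ∨ b < d)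

theorem Triang.side {V : Type} [LinearOrder V] {T : SimpleGraph V} (hT : Triang T) {a b : V}
    (hab : a < b) (h : ∀ x, a < x → ¬ x < b) : T.Adj a b := by
  by_contra hcon
  obtain ⟨c, d, _, h1, h2, _⟩ := hT.maximal a b hab hcon
  exact h c h1 h2

theorem Triang.base {V : Type} [LinearOrder V] {T : SimpleGraph V} (hT : Triang T) {a b : V}
    (hab : a < b) (ha : ∀ x, a ≤ x) (hb : ∀ x, x ≤ b) : T.Adj a b := by
  by_contra hcon
  obtain ⟨c, d, _, h1, h2, h3 | h3⟩ := hT.maximal a b hab hcon
  · exact absurd (ha d) (not_le.2 h3)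
  · exact absurd (hb d) (not_le.2 h3)

/-- An ear. -/
theorem Triang.ear {V : Type} [LinearOrder V] [Fintype V] {T : SimpleGraph V} (hT : Triang T)
    (hV : 3 ≤ Fintype.card V) :
    ∃ v u w : V, u < v ∧ v < w ∧ (∀ x, x < v → x ≤ u) ∧ (∀ x, v < x → w ≤ x) ∧
      (∀ x, T.Adj v x ↔ x = u ∨ x = w) ∧ T.Adj u w := by
  classical
  have hne : (Finset.univ : Finset V).Nonempty := by
    rw [Finset.univ_nonempty_iff, ← Fintype.card_pos_iff]
    omega
  let S : V → V → Finset V := fun a b => Finset.univ.filter (fun x => a < x ∧ x < b)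
  have hS : ∀ a b x, x ∈ S a b ↔ a < x ∧ x < b := fun a b x => by simp [S]
  let P : Finset (V × V) :=
    Finset.univ.filter (fun p => T.Adj p.1 p.2 ∧ p.1 < p.2 ∧ (S p.1 p.2).Nonempty)
  have hP : ∀ p, p ∈ P ↔ T.Adj p.1 p.2 ∧ p.1 < p.2 ∧ (S p.1 p.2).Nonempty := fun p => by
    simp [P]
  let mn := (Finset.univ : Finset V).min' hne
  let mx := (Finset.univ : Finset V).max' hne
  have hmn : ∀ x, mn ≤ x := fun x => Finset.min'_le _ _ (Finset.mem_univ x)
  have hmx : ∀ x, x ≤ mx := fun x => Finset.le_max' _ _ (Finset.mem_univ x)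
  obtain ⟨z, hz⟩ : ∃ z : V, z ∉ ({mn, mx} : Finset V) := by
    by_contra hcon
    push Not at hcon
    have h1 : (Finset.univ : Finset V) ⊆ {mn, mx} := fun x _ => hcon x
    have h2 := Finset.card_le_card h1
    have h3 := Finset.card_le_two (a := mn) (b := mx)
    rw [Finset.card_univ] at h2
    omega
  have hz1 : z ≠ mn ∧ z ≠ mx := by simpa using hz
  have hz2 : mn < z := lt_of_le_of_ne (hmn z) hz1.1.symm
  have hz3 : z < mx := lt_of_le_of_ne (hmx z) hz1.2
  have hPne : P.Nonempty := ⟨(mn, mx), (hP _).2 ⟨hT.base (hz2.trans hz3) hmn hmx, hz2.trans hz3,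
    z, (hS _ _ _).2 ⟨hz2, hz3⟩⟩⟩
  obtain ⟨⟨a, b⟩, hab, hmin⟩ := Finset.exists_min_image P (fun p => (S p.1 p.2).card) hPne
  obtain ⟨hadj, _, v, hv⟩ := (hP _).1 hab
  simp only at hadj hv hmin
  obtain ⟨hav, hvb⟩ := (hS _ _ _).1 hv
  have up : ∀ x, T.Adj v x → v < x → ∀ y, v < y → ¬ y < x := by
    intro x hx hvx y h1 h2
    have hxb : x ≤ b := by
      by_contra hcon
      exact hT.noCross a v b x hav hvb (not_le.1 hcon) ⟨hadj, hx⟩
    have h3 := hmin (v, x) ((hP _).2 ⟨hx, hvx, y, (hS _ _ _).2 ⟨h1, h2⟩⟩)
    have h4 : S v x ⊂ S a b := by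
      rw [Finset.ssubset_iff_of_subset]
      · exact ⟨v, (hS _ _ _).2 ⟨hav, hvb⟩, fun h => lt_irrefl v ((hS _ _ _).1 h).1⟩
      · intro y hy
        obtain ⟨h5, h6⟩ := (hS _ _ _).1 hy
        exact (hS _ _ _).2 ⟨hav.trans h5, h6.trans_le hxb⟩
    exact absurd (Finset.card_lt_card h4) (not_lt.2 h3)
  have down : ∀ x, T.Adj v x → x < v → ∀ y, x < y → ¬ y < v := by
    intro x hx hvx y h1 h2
    have hxa : a ≤ x := by
      by_contra hcon
      exact hT.noCross x a v b (not_le.1 hcon) hav hvb ⟨hx.symm, hadj⟩
    have h3 := hmin (x, v) ((hP _).2 ⟨hx.symm, hvx, y, (hS _ _ _).2 ⟨h1, h2⟩⟩)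
    have h4 : S x v ⊂ S a b := by
      rw [Finset.ssubset_iff_of_subset]
      · exact ⟨v, (hS _ _ _).2 ⟨hav, hvb⟩, fun h => lt_irrefl v ((hS _ _ _).1 h).2⟩
      · intro y hy
        obtain ⟨h5, h6⟩ := (hS _ _ _).1 hy
        exact (hS _ _ _).2 ⟨hxa.trans_lt h5, h6.trans hvb⟩
    exact absurd (Finset.card_lt_card h4) (not_lt.2 h3)
  have hL : (Finset.univ.filter (fun x => x < v)).Nonempty := ⟨a, by simp [hav]⟩
  have hR : (Finset.univ.filter (fun x => v < x)).Nonempty := ⟨b, by simp [hvb]⟩
  obtain ⟨u, hu⟩ : ∃ u, u = (Finset.univ.filter (fun x => x < v)).max' hL := ⟨_, rfl⟩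
  obtain ⟨w, hw⟩ : ∃ w, w = (Finset.univ.filter (fun x => v < x)).min' hR := ⟨_, rfl⟩
  have hu1 : u < v := by
    have := Finset.max'_mem _ hL
    rw [← hu] at this
    simpa using this
  have hw1 : v < w := by
    have := Finset.min'_mem _ hR
    rw [← hw] at this
    simpa using this
  have hu2 : ∀ x, x < v → x ≤ u := fun x hx => by
    rw [hu]
    exact Finset.le_max' _ _ (by simp [hx])
  have hw2 : ∀ x, v < x → w ≤ x := fun x hx => by
    rw [hw]
    exact Finset.min'_le _ _ (by simp [hx])
  have huv : T.Adj u v := hT.side hu1 (fun x h1 h2 => absurd (hu2 x h2) (not_le.2 h1))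
  have hvw : T.Adj v w := hT.side hw1 (fun x h1 h2 => absurd (hw2 x h1) (not_le.2 h2))
  have hN : ∀ x, T.Adj v x ↔ x = u ∨ x = w := by
    intro x
    constructor
    · intro hx
      rcases lt_trichotomy x v with h | h | h
      · left
        by_contra hne
        exact down x hx h u (lt_of_le_of_ne (hu2 x h) hne) hu1
      · exact absurd h hx.ne'
      · right
        by_contra hne
        exact up x hx h w hw1 (lt_of_le_of_ne (hw2 x h) (Ne.symm hne))
    · rintro (rfl | rfl)
      · exact huv.symm
      · exact hvw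
  refine ⟨v, u, w, hu1, hw1, hu2, hw2, hN, ?_⟩
  by_contra hcon
  obtain ⟨c, d, h1, h2, h3, h4⟩ := hT.maximal u w (hu1.trans hw1) hcon
  have hc : c = v := by
    rcases lt_trichotomy c v with h | h | h
    · exact absurd (hu2 c h) (not_le.2 h2)
    · exact h
    · exact absurd (hw2 c h) (not_le.2 h3)
  subst hc
  rcases (hN d).1 h1 with rfl | rfl
  · rcases h4 with h4 | h4
    · exact lt_irrefl _ h4
    · exact lt_irrefl _ (h4.trans (hu1.trans hw1))
  · rcases h4 with h4 | h4
    · exact lt_irrefl _ (h4.trans (hu1.trans hw1))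
    · exact lt_irrefl _ h4

theorem Triang.remove {V : Type} [LinearOrder V] {T : SimpleGraph V} (hT : Triang T)
    {v u w : V} (huv : u < v) (hvw : v < w) (hu : ∀ x, x < v → x ≤ u) (hw : ∀ x, v < x → w ≤ x)
    (hN : ∀ x, T.Adj v x ↔ x = u ∨ x = w) :
    Triang (T.comap (Subtype.val : {x : V // x ≠ v} → V)) where
  noCross := fun i j k l h1 h2 h3 h => hT.noCross i.1 j.1 k.1 l.1 h1 h2 h3 h
  maximal := by
    intro a b hab hnot
    have hab' : a.1 < b.1 := hab
    obtain ⟨c, d, h1, h2, h3, h4⟩ := hT.maximal a.1 b.1 hab' hnot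
    have hav := a.2
    have hbv := b.2
    have hcv : c ≠ v := by
      rintro rfl
      rcases (hN d).1 h1 with rfl | rfl
      · rcases h4 with h4 | h4
        · exact absurd (hu _ h2) (not_le.2 h4)
        · exact lt_irrefl _ (h4.trans (huv.trans h3))
      · rcases h4 with h4 | h4
        · exact lt_irrefl _ (h4.trans (h2.trans hvw))
        · exact absurd (hw _ h3) (not_le.2 h4)
    have hdv : d ≠ v := by
      rintro rfl
      rcases (hN c).1 h1.symm with rfl | rfl
      · rcases h4 with h4 | h4
        · exact lt_irrefl _ (h4.trans (h2.trans huv))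
        · exact absurd (hu _ h4) (not_le.2 h3)
      · rcases h4 with h4 | h4
        · exact absurd (hw _ h4) (not_le.2 h2)
        · exact lt_irrefl _ (h4.trans (hvw.trans h3))
    exact ⟨⟨c, hcv⟩, ⟨d, hdv⟩, h1, h2, h3, h4⟩

/-- The chromatic polynomial of a triangulation of a polygon with `m + 2` vertices. -/
theorem Triang.chr_eq (m : ℕ) : ∀ (V : Type) [LinearOrder V] [Fintype V] (T : SimpleGraph V),
    Triang T → Fintype.card V = m + 2 → chr T = X * (X - 1) * (X - 2) ^ m := by
  classical
  induction m with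
  | zero =>
    intro V _ _ T hT hV
    obtain ⟨x, y, hxy, huniv⟩ : ∃ x y : V, x ≠ y ∧ (Finset.univ : Finset V) = {x, y} := by
      rw [← Finset.card_eq_two, Finset.card_univ, hV]
    have hall : ∀ z : V, z = x ∨ z = y := by
      intro z
      have := Finset.mem_univ z
      rw [huniv] at this
      simpa using this
    have hadj : T.Adj x y := by
      rcases lt_or_gt_of_ne hxy with h | h
      · apply hT.side h
        intro z h1 h2
        rcases hall z with rfl | rfl
        · exact lt_irrefl _ h1
        · exact lt_irrefl _ h2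
      · refine (hT.side h ?_).symm
        intro z h1 h2
        rcases hall z with rfl | rfl
        · exact lt_irrefl _ h2
        · exact lt_irrefl _ h1
    have h1 := chr_simplicial T x {y} (by
      intro z
      rw [Finset.mem_singleton]
      constructor
      · intro h
        rcases hall z with rfl | rfl
        · exact absurd rfl h.ne
        · rfl
      · rintro rfl
        exact hadj) (by
      intro a ha b hb hab
      rw [Finset.mem_singleton] at ha hb
      exact absurd (ha.trans hb.symm) hab)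
    let T' := T.comap (Subtype.val : {z : V // z ≠ x} → V)
    have hone : ∀ z : {z : V // z ≠ x}, z = ⟨y, hxy.symm⟩ := by
      intro z
      rcases hall z.1 with h | h
      · exact absurd h z.2
      · exact Subtype.ext h
    have h2 := chr_simplicial T' ⟨y, hxy.symm⟩ ∅ (by
      intro z
      rw [hone z]
      constructor
      · intro h
        exact absurd rfl h.ne
      · intro h
        exact absurd h (Finset.notMem_empty _)) (by
      intro a ha
      exact absurd ha (Finset.notMem_empty _))
    have : IsEmpty {z : {z : V // z ≠ x} // z ≠ ⟨y, hxy.symm⟩} := ⟨fun z => z.2 (hone z.1)⟩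
    rw [h1, show T.comap (Subtype.val : {z : V // z ≠ x} → V) = T' from rfl, h2, chr_empty]
    simp only [Finset.card_singleton, Finset.card_empty, Nat.cast_one, Nat.cast_zero, map_one,
      map_zero, sub_zero, mul_one, pow_zero]
    ring
  | succ m ih =>
    intro V _ _ T hT hV
    obtain ⟨v, u, w, huv, hvw, hu, hw, hN, huw⟩ := hT.ear (by omega)
    have hne : u ≠ w := (huv.trans hvw).ne
    have h1 := chr_simplicial T v {u, w} (by
      intro x
      rw [hN x]
      simp) (by
      intro a ha b hb hab
      simp only [Finset.mem_insert, Finset.mem_singleton] at ha hb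
      rcases ha with rfl | rfl <;> rcases hb with rfl | rfl
      · exact absurd rfl hab
      · exact huw
      · exact huw.symm
      · exact absurd rfl hab)
    have h2 := ih {x : V // x ≠ v} (T.comap (Subtype.val : {x : V // x ≠ v} → V))
      (hT.remove huv hvw hu hw hN) (by
        have : Fintype.card {x : V // x ≠ v} = Fintype.card V - 1 := by
          rw [Fintype.card_subtype_compl, Fintype.card_subtype_eq]
        omega)
    rw [h1, h2, Finset.card_pair hne]
    have h3 : (C ((2 : ℕ) : ℝ) : ℝ[X]) = 2 := by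
      rw [Nat.cast_ofNat]
      exact map_ofNat C 2
    rw [h3]
    ring

end Pool.Agent.U347.BL
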